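import Pool.Agent.Lib.MP_49fa77_co.H30.Iface3
import Pool.Agent.Lib.MP_49fa77_co.Bnd

/-!
# The area of the maximal region and the length of its boundary
-/

set_option autoImplicit false

namespace FT58.AS.H23

open Real MeasureTheory Set Metric Filter Relation FT58 FT58.AS

lemma Hg_symm {S : Finset ℂ} {c q : ℂ} (h : Hg S c q) : Hg S q c := by
  refine ⟨h.2.1, h.1, ?_⟩
  rcases h.2.2 with h' | h' | h'
  · exact Or.inl (Se_symm h')
  · exact Or.inr (Or.inr h')
  · exact Or.inr (Or.inl h')

lemma reach_symm {S : Finset ℂ} {c q : ℂ} (h : ReflTransGen (Hg S) c q) :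
    ReflTransGen (Hg S) q c := by
  induction h with
  | refl => exact ReflTransGen.refl
  | tail _ h2 ih => exact ReflTransGen.trans (ReflTransGen.single (Hg_symm h2)) ih

/-- A representative of the component. -/
noncomputable def rp (S : Finset ℂ) (x : ℂ) : ℂ :=
  Classical.epsilon (fun y => ReflTransGen (Hg S) x y)

lemma rp_reach (S : Finset ℂ) (x : ℂ) : ReflTransGen (Hg S) x (rp S x) :=
  Classical.epsilon_spec (p := fun y => ReflTransGen (Hg S) x y) ⟨x, ReflTransGen.refl⟩

lemma rp_eq {S : Finset ℂ} {x y : ℂ} (h : Hg S x y) : rp S y = rp S x := by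
  unfold rp
  congr 1
  funext z
  apply propext
  constructor
  · intro hz
    exact ReflTransGen.trans (ReflTransGen.single h) hz
  · intro hz
    exact ReflTransGen.trans (ReflTransGen.single (Hg_symm h)) hz

lemma reach_mem {S : Finset ℂ} {x y : ℂ} (hx : x ∈ S) (h : ReflTransGen (Hg S) x y) : y ∈ S := by
  induction h with
  | refl => exact hx
  | tail _ h2 _ => exact h2.2.1

lemma cr_le (u v : ℂ) : cr u v ≤ ‖u‖ * ‖v‖ := by
  have h1 : cr u v ^ 2 ≤ (‖u‖ * ‖v‖) ^ 2 := by
    rw [mul_pow, norm_sq_eq, norm_sq_eq]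
    unfold cr
    nlinarith [sq_nonneg (u.re * v.re + u.im * v.im)]
  exact le_trans (le_abs_self _) (abs_le_of_sq_le_sq h1 (by positivity))

/-- The module LA. -/
theorem la_st : LaS := by
  classical
  intro S R _hG hR
  set f : ℂ → ℂ → ℝ := fun c q => cr (c - rp S c) (q - rp S c) with hf
  have hF : Fam S (MX S S) := (MX_Rg S S).toFam
  have hHg : ∀ c q r, MX S S c q r → Hg S c q := by
    intro c q r h
    have ht := hF.tr _ _ _ h
    exact ⟨ht.1, ht.2.1, Or.inr (Or.inl ⟨r, h⟩)⟩
  have e1 : sT S (MX S S) XX = 3 * sE S (Lf (MX S S)) f := by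
    rw [← sT_edge hF, ← sT_avg hF.cyc]
    apply sT_congr
    intro c q r h
    have h1 : rp S q = rp S c := rp_eq (hHg _ _ _ h)
    have h2 : rp S r = rp S q := rp_eq (hHg _ _ _ (hF.cyc _ _ _ h))
    simp only [hf, XX, cr, h2, h1, Complex.sub_re, Complex.sub_im]
    ring
  have e2 : sE S (Lf (MX S S)) f ≤ R * sE S (Ou S) ln := by
    have h3 := sE_split (P := S) (X := Lf (MX S S)) (Y := fun c q => Lf (MX S S) q c) f
    have h4 : sE S (fun c q => Lf (MX S S) c q ∧ Lf (MX S S) q c) f = 0 := by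
      apply sE_anti
      · rintro c _ q _ ⟨⟨r, hr⟩, _⟩ _
        have h1 : rp S q = rp S c := rp_eq (hHg _ _ _ hr)
        simp only [hf, cr, h1, Complex.sub_re, Complex.sub_im]
        ring
      · intro c _ q _ k1 k2
        exact absurd ⟨k1.2, k1.1⟩ k2
    rw [h3, h4, zero_add, ← sE_smul, sE_comm (Ou S)]
    unfold sE
    refine Finset.sum_le_sum fun c hc => Finset.sum_le_sum fun q hq => ?_
    have hR0 : 0 ≤ R := by
      have := hR c hc c hc ReflTransGen.refl
      simpa using this
    by_cases h5 : Lf (MX S S) c q ∧ ¬ Lf (MX S S) q c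
    · obtain ⟨⟨r, hr⟩, h6⟩ := h5
      have h7 : Ou S q c := by
        refine ⟨?_, h6⟩
        rcases (MX_Rg S S).bd _ _ _ hr with h8 | h8
        · exact absurd h8 h6
        · exact Se_symm ⟨(Tr_ne (hF.tr _ _ _ hr)).1, h8.1, h8.2⟩
      rw [if_pos ⟨⟨r, hr⟩, h6⟩, if_pos h7]
      have h9 : f c q = cr (c - rp S c) (q - c) := by
        simp only [hf, cr, Complex.sub_re, Complex.sub_im]
        ring
      rw [h9]
      calc cr (c - rp S c) (q - c) ≤ ‖c - rp S c‖ * ‖q - c‖ := cr_le _ _
        _ ≤ R * ‖q - c‖ := by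
            apply mul_le_mul_of_nonneg_right _ (norm_nonneg _)
            exact hR c hc _ (reach_mem hc (rp_reach S c)) (rp_reach S c)
        _ = R * ln q c := by rw [ln, norm_sub_rev]
    · rw [if_neg h5]
      split_ifs
      · exact mul_nonneg hR0 (norm_nonneg _)
      · exact le_rfl
  rw [e1]
  linarith

end FT58.AS.H23
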