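import Pool.Agent.Lib.MP_49fa77_co.H30.Iface

/-!
# MK: Minkowski sum of a convex body and a segment
-/

set_option autoImplicit false

namespace FT58.AS.H23

open Real MeasureTheory Set Metric Filter FT58 FT58.AS

lemma ms_compact {K : Set ℂ} (u : ℂ) (hK : IsCompact K) : IsCompact (Ms K u) := by
  have h : Ms K u = (fun p : ℂ × ℝ => p.1 + (p.2 : ℂ) * u) '' (K ×ˢ Icc (0 : ℝ) 1) := by
    ext z
    constructor
    · rintro ⟨x, hx, s, hs0, hs1, rfl⟩
      exact ⟨(x, s), ⟨hx, hs0, hs1⟩, rfl⟩
    · rintro ⟨p, ⟨hp1, hp2⟩, rfl⟩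
      exact ⟨p.1, hp1, p.2, hp2.1, hp2.2, rfl⟩
  rw [h]
  refine (hK.prod isCompact_Icc).image ?_
  fun_prop

lemma ms_convex {K : Set ℂ} (u : ℂ) (hK : Convex ℝ K) : Convex ℝ (Ms K u) := by
  rintro z ⟨x, hx, s, hs0, hs1, rfl⟩ z' ⟨x', hx', s', hs0', hs1', rfl⟩ a b ha hb hab
  refine ⟨a • x + b • x', hK hx hx' ha hb hab, a * s + b * s', by positivity, ?_, ?_⟩
  · nlinarith
  · simp only [Complex.real_smul]
    push_cast
    ring

/-- The linear functional which separates the pieces. -/
noncomputable def gf (b e z : ℂ) : ℝ := cr e (z - b)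

lemma gf_cont (b e : ℂ) : Continuous (gf b e) := by
  unfold gf cr
  fun_prop

lemma gf_add (b e z u : ℂ) : gf b e (z + u) = gf b e z + cr e u := by
  unfold gf cr
  simp only [Complex.sub_re, Complex.sub_im, Complex.add_re, Complex.add_im]
  ring

lemma gf_par (b e u : ℂ) (x y : ℝ) : gf b e (b + (x * e + y * u)) = y * cr e u := by
  unfold gf cr
  simp only [Complex.sub_re, Complex.sub_im, Complex.add_re, Complex.add_im, Complex.mul_re,
    Complex.mul_im, Complex.ofReal_re, Complex.ofReal_im]
  ring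

theorem mk_st : MkS := by
  intro K u b t hK hc hb ht hneg
  refine ⟨ms_compact u hK, ms_convex u hc, ?_⟩
  set e : ℂ := t - b with he
  have hKm : MeasurableSet K := hK.measurableSet
  have hgc := gf_cont b e
  set S1 : Set ℂ := K ∩ {z | 0 < gf b e z} with hS1
  set S3 : Set ℂ := K ∩ {z | gf b e z ≤ 0} with hS3
  set S2 : Set ℂ := (fun z => u + z) '' S3 with hS2
  set P : Set ℂ := (fun z => b + z) '' FP e u with hP
  have m1 : MeasurableSet S1 := hKm.inter (isOpen_lt continuous_const hgc).measurableSet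
  have m3 : MeasurableSet S3 := hKm.inter (isClosed_le hgc continuous_const).measurableSet
  have m2 : MeasurableSet S2 := by
    rw [hS2, image_add_left]
    exact m3.preimage (measurable_const_add _)
  have v2 : volume S2 = volume S3 := by
    rw [hS2, image_add_left, measure_preimage_add]
  have vP : volume P = ENNReal.ofReal |cr e u| := by
    rw [hP, image_add_left, measure_preimage_add, FP_vol]
    rfl
  have g1 : ∀ z ∈ S1, 0 < gf b e z := fun z hz => hz.2
  have g2 : ∀ z ∈ S2, gf b e z ≤ cr e u := by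
    rintro z ⟨w, hw, rfl⟩
    have h := gf_add b e w u
    have h2 : gf b e w ≤ 0 := hw.2
    show gf b e (u + w) ≤ _
    rw [add_comm u w, h]
    linarith
  have gP : ∀ z ∈ P, gf b e z ≤ 0 ∧ cr e u < gf b e z := by
    rintro z ⟨w, ⟨x, y, hx0, hx1, hy0, hy1, rfl⟩, rfl⟩
    show gf b e (b + _) ≤ 0 ∧ cr e u < gf b e (b + _)
    rw [gf_par]
    constructor <;> nlinarith
  have d12 : Disjoint S1 S2 := by
    rw [Set.disjoint_left]
    intro z h1 h2
    have := g1 z h1
    have := g2 z h2
    linarith
  have dP : Disjoint P (S1 ∪ S2) := by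
    rw [Set.disjoint_left]
    rintro z h1 (h2 | h2)
    · have := g1 z h2
      have := (gP z h1).1
      linarith
    · have := g2 z h2
      have := (gP z h1).2
      linarith
  have vK : volume S1 + volume S3 = volume K := by
    have hm : MeasurableSet {z : ℂ | (0 : ℝ) < gf b e z} :=
      (isOpen_lt continuous_const hgc).measurableSet
    have h := measure_inter_add_sdiff (μ := (volume : Measure ℂ)) K hm
    have h3 : K \ {z | 0 < gf b e z} = S3 := by
      ext z
      simp [hS3, not_lt]
    rw [← h, h3]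
  have hsub : P ∪ (S1 ∪ S2) ⊆ Ms K u := by
    rintro z (h | h | h)
    · obtain ⟨w, ⟨x, y, hx0, hx1, hy0, hy1, rfl⟩, rfl⟩ := h
      refine ⟨b + x * e, ?_, y, hy0, hy1.le, ?_⟩
      · have h1 := hc hb ht (sub_nonneg.2 hx1.le) hx0 (sub_add_cancel 1 x)
        have h2 : (1 - x) • b + x • t = b + x * e := by
          rw [he]
          simp only [Complex.real_smul]
          push_cast
          ring
        rwa [h2] at h1
      · show b + _ = _
        ring
    · exact ⟨z, h.1, 0, le_refl _, zero_le_one, by simp⟩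
    · obtain ⟨w, hw, rfl⟩ := h
      exact ⟨w, hw.1, 1, zero_le_one, le_refl _, by simp [add_comm]⟩
  calc volume K + ENNReal.ofReal |cr e u| = volume P + (volume S1 + volume S2) := by
        rw [vP, v2, vK, add_comm]
    _ = volume (P ∪ (S1 ∪ S2)) := by
        rw [measure_union dP (m1.union m2), measure_union d12 m2]
    _ ≤ volume (Ms K u) := measure_mono hsub

end FT58.AS.H23
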